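import Mathlib
import Pool.Agent.Helper161.Cpu.Statement
import Pool.Agent.Helper161.Cpu.Forc

/-!
# No `C_p`-universal compact spaces of uncountable weight in Cohen extensions

For each uncountable cardinal `κ` it is consistent with ZFC that no compact space of weight `κ` is
`C_p`-universal for weight `κ`. The proof has two parts, both without any hypothesis:

* a theorem about topological spaces: the graph principle `GraphPrinciple K` implies that for each
  compact Hausdorff space `W` of weight at most `|K|` there is a compact Hausdorff space `X` of weight
  at most `|K|` such that `C_p(X)` does not embed in `C_p(W)`;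
* for each uncountable set `K` there is a ccc forcing notion (adding `|K|⁺` Cohen reals) such that all
  conditions force the graph principle for `K`.

The sentence that is forced is literally the graph principle: for the trivial forcing notion `Unit` it
is equivalent to `GraphPrinciple K`.
-/

namespace Pool.Agent.Results.MP_32ee98_gt.NoUniversal

open Pool.Agent.Helper161.Cpu Cardinal

theorem result :
    (∀ (K : Type) [Infinite K], GraphPrinciple K → NoCpUniversal #K) ∧
    (∀ (K : Type) [Uncountable K], ∃ (P : Type) (_ : Preorder P), Nonempty P ∧ CCC P ∧
      ∀ p : P, p ∈ ForcesGraphPrinciple P K) ∧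
    (∀ K : Type, (() ∈ ForcesGraphPrinciple Unit K) ↔ GraphPrinciple K) := by
  obtain ⟨h1, h2, h3⟩ := final
  exact ⟨fun K _ => h1 K, fun K _ => h3 K, h2⟩

end Pool.Agent.Results.MP_32ee98_gt.NoUniversal
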